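import Pool.Agent.helper35.Hz.Hurwitz

/-! # Module M1 of MP_1b0330_gt: the abstract reduction -/

namespace Pool.Agent.helper27.Hz

open Pool.Agent.helper35.Hz

section moves

variable {G : Type*} [Group G]

/-- entrywise conjugation of a list -/
def cj (g : G) (l : List G) : List G := l.map fun f => g * f * g⁻¹

theorem cj_nil (g : G) : cj g [] = [] := rfl

theorem cj_cons (g x : G) (l : List G) : cj g (x :: l) = (g * x * g⁻¹) :: cj g l := rfl

theorem cj_append (g : G) (a b : List G) : cj g (a ++ b) = cj g a ++ cj g b := by simp [cj]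

theorem cj_one (l : List G) : cj 1 l = l := by simp [cj]

theorem cj_cj (g h : G) (l : List G) : cj g (cj h l) = cj (g * h) l := by
  simp [cj, mul_assoc]

theorem cj_prod (g : G) (l : List G) : (cj g l).prod = g * l.prod * g⁻¹ := by
  induction l with
  | nil => simp [cj]
  | cons x l ih => rw [cj_cons, List.prod_cons, ih, List.prod_cons]; group

theorem cj_prod_one (g : G) {l : List G} (h : l.prod = 1) : (cj g l).prod = 1 := by
  rw [cj_prod, h]; group

theorem mem_cj {g x : G} {l : List G} : x ∈ cj g l ↔ ∃ f ∈ l, g * f * g⁻¹ = x := by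
  simp [cj]

theorem he_refl (l : List G) : HurwitzEquiv l l := Relation.EqvGen.refl _

theorem he_symm {l l' : List G} (h : HurwitzEquiv l l') : HurwitzEquiv l' l :=
  Relation.EqvGen.symm _ _ h

theorem he_trans {a b c : List G} (h : HurwitzEquiv a b) (h' : HurwitzEquiv b c) :
    HurwitzEquiv a c := Relation.EqvGen.trans _ _ _ h h'

theorem he_append_left (u : List G) {l l' : List G} (h : HurwitzEquiv l l') :
    HurwitzEquiv (u ++ l) (u ++ l') := by
  induction h with
  | rel a b h =>
    obtain ⟨p, q, x, y⟩ := h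
    have := HurwitzMove.mk (u ++ p) q x y
    rw [List.append_assoc, List.append_assoc] at this
    exact Relation.EqvGen.rel _ _ this
  | refl a => exact he_refl _
  | symm a b _ ih => exact he_symm ih
  | trans a b c _ _ ih1 ih2 => exact he_trans ih1 ih2

theorem he_append_right (v : List G) {l l' : List G} (h : HurwitzEquiv l l') :
    HurwitzEquiv (l ++ v) (l' ++ v) := by
  induction h with
  | rel a b h =>
    obtain ⟨p, q, x, y⟩ := h
    have := HurwitzMove.mk p (q ++ v) x y
    refine Relation.EqvGen.rel _ _ ?_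
    simpa using this
  | refl a => exact he_refl _
  | symm a b _ ih => exact he_symm ih
  | trans a b c _ _ ih1 ih2 => exact he_trans ih1 ih2

theorem he_append {a a' b b' : List G} (h : HurwitzEquiv a a') (h' : HurwitzEquiv b b') :
    HurwitzEquiv (a ++ b) (a' ++ b') :=
  he_trans (he_append_right b h) (he_append_left a' h')

theorem he_move (x : G) (l : List G) : HurwitzEquiv (x :: l) (cj x l ++ [x]) := by
  induction l with
  | nil => exact he_refl _
  | cons y l ih =>
    have h1 : HurwitzEquiv (x :: y :: l) ((x * y * x⁻¹) :: x :: l) :=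
      Relation.EqvGen.rel _ _ (HurwitzMove.mk [] l x y)
    refine he_trans h1 ?_
    rw [cj_cons]
    exact he_append_left [x * y * x⁻¹] ih

theorem he_swap (a b : List G) : HurwitzEquiv (a ++ b) (cj a.prod b ++ a) := by
  induction a with
  | nil => simp only [List.nil_append, List.prod_nil, cj_one, List.append_nil]; exact he_refl _
  | cons x a ih =>
    have h1 : HurwitzEquiv ((x :: a) ++ b) (x :: (cj a.prod b ++ a)) := he_append_left [x] ih
    have h2 : HurwitzEquiv (x :: (cj a.prod b ++ a)) ((cj x (cj a.prod b) ++ [x]) ++ a) :=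
      he_append_right a (he_move x (cj a.prod b))
    refine he_trans h1 (he_trans h2 ?_)
    rw [cj_cj, List.prod_cons, List.append_assoc]
    exact he_refl _

theorem he_swap_one {a : List G} (ha : a.prod = 1) (b : List G) : HurwitzEquiv (a ++ b) (b ++ a) := by
  have := he_swap a b
  rwa [ha, cj_one] at this

theorem he_conj_tail (L : List G) {f : G} (hf : f ∈ Subgroup.closure {f | f ∈ L}) :
    ∀ V : List G, V.prod = 1 → HurwitzEquiv (L ++ V) (L ++ cj f V) := by
  induction hf using Subgroup.closure_induction with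
  | mem f hf =>
    intro V hV
    obtain ⟨L1, L2, rfl⟩ := List.append_of_mem (show f ∈ L from hf)
    have h1 : HurwitzEquiv (L1 ++ f :: L2 ++ V) (L1 ++ f :: (V ++ L2)) := by
      rw [List.append_assoc]
      exact he_append_left L1 (he_append_left [f] (he_symm (he_swap_one hV L2)))
    have h2 : HurwitzEquiv (f :: V) (f :: cj f V) :=
      he_trans (he_move f V) (he_swap_one (cj_prod_one f hV) [f])
    have h3 : HurwitzEquiv (L1 ++ f :: (V ++ L2)) (L1 ++ f :: (cj f V ++ L2)) :=
      he_append_left L1 (he_append_right L2 h2)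
    have h4 : HurwitzEquiv (L1 ++ f :: (cj f V ++ L2)) (L1 ++ f :: L2 ++ cj f V) := by
      rw [List.append_assoc]
      exact he_append_left L1 (he_append_left [f] (he_swap_one (cj_prod_one f hV) L2))
    exact he_trans h1 (he_trans h3 h4)
  | one => intro V _; rw [cj_one]; exact he_refl _
  | mul x y _ _ hx hy =>
    intro V hV
    have := hx (cj y V) (cj_prod_one y hV)
    rw [cj_cj] at this
    exact he_trans (hy V hV) this
  | inv x _ hx =>
    intro V hV
    have := hx (cj x⁻¹ V) (cj_prod_one _ hV)
    rw [cj_cj, mul_inv_cancel, cj_one] at this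
    exact he_symm this

theorem he_conj_all {V : List G} (hV : V.prod = 1) (hs : List G) :
    ∀ L : List G, (∀ h ∈ hs, h ∈ Subgroup.closure {f | f ∈ L}) →
      HurwitzEquiv (L ++ (List.replicate hs.length V).flatten) (L ++ hs.flatMap fun h => cj h V) := by
  induction hs with
  | nil => intro L _; exact he_refl _
  | cons h hs ih =>
    intro L hL
    rw [List.length_cons, List.replicate_succ, List.flatten_cons, List.flatMap_cons,
      ← List.append_assoc, ← List.append_assoc]
    refine he_trans (he_append_right _ (he_conj_tail L (hL h (by simp)) V hV)) (ih _ ?_)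
    intro h' hh'
    refine Subgroup.closure_mono ?_ (hL h' (by simp [hh']))
    intro x hx
    simp only [Set.mem_ofPred_eq, List.mem_append] at hx ⊢
    exact Or.inl hx

theorem closure_move {l l' : List G} (h : HurwitzMove l l') :
    Subgroup.closure {f | f ∈ l} = Subgroup.closure {f | f ∈ l'} := by
  obtain ⟨u, v, x, y⟩ := h
  refine le_antisymm ?_ ?_
  · rw [Subgroup.closure_le]
    intro f hf
    simp only [Set.mem_ofPred_eq, List.mem_append, List.mem_cons] at hf
    have hx : x ∈ Subgroup.closure {f | f ∈ u ++ (x * y * x⁻¹) :: x :: v} :=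
      Subgroup.subset_closure (by simp)
    have hy : x * y * x⁻¹ ∈ Subgroup.closure {f | f ∈ u ++ (x * y * x⁻¹) :: x :: v} :=
      Subgroup.subset_closure (by simp)
    rcases hf with hf | rfl | rfl | hf
    · exact Subgroup.subset_closure (by simp [hf])
    · exact hx
    · have := Subgroup.mul_mem _ (Subgroup.mul_mem _ (Subgroup.inv_mem _ hx) hy) hx
      simpa [mul_assoc] using this
    · exact Subgroup.subset_closure (by simp [hf])
  · rw [Subgroup.closure_le]
    intro f hf
    simp only [Set.mem_ofPred_eq, List.mem_append, List.mem_cons] at hf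
    have hx : x ∈ Subgroup.closure {f | f ∈ u ++ x :: y :: v} :=
      Subgroup.subset_closure (by simp)
    have hy : y ∈ Subgroup.closure {f | f ∈ u ++ x :: y :: v} :=
      Subgroup.subset_closure (by simp)
    rcases hf with hf | rfl | rfl | hf
    · exact Subgroup.subset_closure (by simp [hf])
    · exact Subgroup.mul_mem _ (Subgroup.mul_mem _ hx hy) (Subgroup.inv_mem _ hx)
    · exact hx
    · exact Subgroup.subset_closure (by simp [hf])

theorem closure_he {l l' : List G} (h : HurwitzEquiv l l') :
    Subgroup.closure {f | f ∈ l} = Subgroup.closure {f | f ∈ l'} := by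
  induction h with
  | rel a b h => exact closure_move h
  | refl a => rfl
  | symm a b _ ih => exact ih.symm
  | trans a b c _ _ ih1 ih2 => exact ih1.trans ih2

end moves

section words

variable {G : Type*} [Group G] {ι : Type*} (gen : ι → G)

/-- the formal inverse of a word -/
def winv {α : Type*} (w : List (α × Bool)) : List (α × Bool) := (w.map fun p => (p.1, !p.2)).reverse

theorem evalWord_append (a b : List (ι × Bool)) : evalWord gen (a ++ b) = evalWord gen a * evalWord gen b := by
  simp [evalWord]

theorem evalWord_nil : evalWord gen [] = 1 := rfl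

theorem evalWord_cons (p : ι × Bool) (b : List (ι × Bool)) :
    evalWord gen (p :: b) = (if p.2 then gen p.1 else (gen p.1)⁻¹) * evalWord gen b := by
  simp [evalWord]

theorem evalWord_winv (a : List (ι × Bool)) : evalWord gen (winv a) = (evalWord gen a)⁻¹ := by
  induction a with
  | nil => simp [winv, evalWord_nil]
  | cons p a ih =>
    have : winv (p :: a) = winv a ++ [(p.1, !p.2)] := by simp [winv]
    rw [this, evalWord_append, ih, evalWord_cons, evalWord_cons, evalWord_nil]
    obtain ⟨i, b⟩ := p
    cases b <;> simp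

theorem exists_word {f : G} (hf : f ∈ Subgroup.closure (Set.range gen)) :
    ∃ w : List (ι × Bool), evalWord gen w = f := by
  induction hf using Subgroup.closure_induction with
  | mem f hf =>
    obtain ⟨i, rfl⟩ := hf
    exact ⟨[(i, true)], by simp [evalWord]⟩
  | one => exact ⟨[], rfl⟩
  | mul x y _ _ hx hy =>
    obtain ⟨a, rfl⟩ := hx
    obtain ⟨b, rfl⟩ := hy
    exact ⟨a ++ b, evalWord_append gen a b⟩
  | inv x _ hx =>
    obtain ⟨a, rfl⟩ := hx
    exact ⟨winv a, evalWord_winv gen a⟩

theorem exists_words (l : List G) (hl : ∀ f ∈ l, f ∈ Subgroup.closure (Set.range gen)) :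
    ∃ w : List (List (ι × Bool)), w.map (evalWord gen) = l := by
  induction l with
  | nil => exact ⟨[], rfl⟩
  | cons x l ih =>
    obtain ⟨w, hw⟩ := ih fun f hf => hl f (by simp [hf])
    obtain ⟨v, hv⟩ := exists_word gen (hl x (by simp))
    exact ⟨v :: w, by simp [hv, hw]⟩

/-- conjugation of a list of words by a word -/
def cjw (c : List (ι × Bool)) (l : List (List (ι × Bool))) : List (List (ι × Bool)) :=
  l.map fun v => c ++ v ++ winv c

theorem cjw_map (c : List (ι × Bool)) (l : List (List (ι × Bool))) :
    (cjw c l).map (evalWord gen) = cj (evalWord gen c) (l.map (evalWord gen)) := by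
  simp [cjw, cj, evalWord_append, evalWord_winv, mul_assoc]

/-- substitute words for letters -/
def sub {α : Type*} (p : α → List (ι × Bool)) (w : List (α × Bool)) : List (ι × Bool) :=
  w.flatMap fun q => if q.2 then p q.1 else winv (p q.1)

theorem evalWord_sub {n : ℕ} (P : FreeGroup (Fin n) →* G) (p : Fin n → List (ι × Bool))
    (hp : ∀ i, evalWord gen (p i) = P (FreeGroup.of i)) (w : List (Fin n × Bool)) :
    evalWord gen (sub p w) = P (FreeGroup.mk w) := by
  induction w with
  | nil => simp [sub, evalWord_nil, ← FreeGroup.one_eq_mk]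
  | cons q w ih =>
    have h1 : sub p (q :: w) = (if q.2 then p q.1 else winv (p q.1)) ++ sub p w := by simp [sub]
    have h2 : FreeGroup.mk (q :: w) = FreeGroup.mk [q] * FreeGroup.mk w := by
      rw [FreeGroup.mul_mk]; rfl
    rw [h1, h2, evalWord_append, ih, map_mul]
    congr 1
    obtain ⟨i, b⟩ := q
    cases b
    · have : FreeGroup.mk [(i, false)] = (FreeGroup.of i)⁻¹ := by
        simp [FreeGroup.of, FreeGroup.inv_mk, FreeGroup.invRev]
      simp [this, evalWord_winv, hp]
    · simpa [FreeGroup.of] using hp i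

end words

section comp

variable {ι : Type} [Primcodable ι] {n : ℕ}

theorem primrec_winv {α : Type} [Primcodable α] : Primrec (winv : List (α × Bool) → List (α × Bool)) := by
  refine Primrec.list_reverse.comp (Primrec.list_map Primrec.id ?_)
  exact Primrec.pair (Primrec.fst.comp Primrec.snd)
    (Primrec.not.comp (Primrec.snd.comp Primrec.snd))

theorem primrec_sub (p : Fin n → List (ι × Bool)) : Primrec (sub p : List (Fin n × Bool) → _) := by
  refine Primrec.list_flatMap Primrec.id ?_
  exact (Primrec.dom_finite (fun q : Fin n × Bool => if q.2 then p q.1 else winv (p q.1))).comp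
    Primrec.snd

theorem primrec_cjw (c : List (Fin n × Bool) → List (ι × Bool)) (hc : Primrec c)
    (l : List (List (ι × Bool))) : Primrec fun w => cjw (c w) l := by
  refine Primrec.list_map (Primrec.const l) ?_
  exact Primrec.list_append.comp
    (Primrec.list_append.comp (hc.comp Primrec.fst) Primrec.snd)
    (primrec_winv.comp (hc.comp Primrec.fst))

end comp

theorem flatMap_prod_one {G : Type*} [Group G] {V : List G} (hV : V.prod = 1) (hs : List G) :
    (hs.flatMap fun h => cj h V).prod = 1 := by
  induction hs with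
  | nil => simp
  | cons h hs ih => simp [ih, cj_prod_one h hV]

theorem replicate_prod_one {G : Type*} [Group G] {V : List G} (hV : V.prod = 1) (n : ℕ) :
    ((List.replicate n V).flatten).prod = 1 := by
  induction n with
  | zero => simp
  | succ n ih => simp [List.replicate_succ, ih, hV]

/-- MODULE M1. Abstract reduction. `G` plays `Out(π_1 Σ_g)`, `gen` the Lickorish twists, `PT` the positive
Dehn twists, `e w = P w * t * (P w)⁻¹`. -/
theorem undecidable_of_top {G : Type*} [Group G] {ι : Type} [Primcodable ι] [Finite ι] (gen : ι → G)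
    (PT : Set G) (hPT : ∀ γ ∈ Subgroup.closure (Set.range gen), ∀ f ∈ PT, γ * f * γ⁻¹ ∈ PT)
    (W : List G) (hW : IsFact PT W) (hWM : ∀ f ∈ W, f ∈ Subgroup.closure (Set.range gen))
    {n : ℕ} (P : FreeGroup (Fin n) →* G) (hP : ∀ w, P w ∈ Subgroup.closure (Set.range gen))
    (t : G) (ht : t ∈ Subgroup.closure (Set.range gen))
    (hbr : ∀ w, P w * t * (P w)⁻¹ ∈ Subgroup.closure
      ({f | f ∈ W} ∪ {f | ∃ f' ∈ W, f = (P w * t * (P w)⁻¹) * f' * (P w * t * (P w)⁻¹)⁻¹}))
    (hmain : ∀ X : Set (FreeGroup (Fin n)),
      Subgroup.closure ({f | f ∈ W} ∪ (fun w => P w * t * (P w)⁻¹) '' X) = Subgroup.closure (Set.range gen) ↔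
        Subgroup.normalClosure X = ⊤)
    (rels : List (FreeGroup (Fin n)))
    (hrels : ¬ ComputablePred (fun w : List (Fin n × Bool) =>
      Subgroup.normalClosure (insert (FreeGroup.mk w) {r | r ∈ rels}) = ⊤)) :
    ∃ T : List (List (ι × Bool)), IsFact PT (T.map (evalWord gen)) ∧
      (¬ ∃ alg : List (List (ι × Bool)) → Bool, Computable alg ∧
        ∀ l, IsFact PT (l.map (evalWord gen)) →
          (alg l = true ↔ HurwitzEquiv (l.map (evalWord gen)) (T.map (evalWord gen)))) ∧
      (¬ ∃ alg : List (List (ι × Bool)) → Bool, Computable alg ∧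
        ∀ l, IsFact PT (l.map (evalWord gen)) →
          (alg l = true ↔ ∃ γ ∈ Subgroup.closure (Set.range gen),
            HurwitzEquiv ((l.map (evalWord gen)).map fun f => γ * f * γ⁻¹) (T.map (evalWord gen)))) := by
  classical
  set Γ := Subgroup.closure (Set.range gen) with hΓ
  -- the conjugates
  set e : FreeGroup (Fin n) → G := fun w => P w * t * (P w)⁻¹ with he
  have heΓ : ∀ w, e w ∈ Γ := fun w =>
    Γ.mul_mem (Γ.mul_mem (hP w) ht) (Γ.inv_mem (hP w))
  -- words
  obtain ⟨Ww, hWw⟩ := exists_words gen W hWM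
  choose pw hpw using fun i : Fin n => exists_word gen (hP (FreeGroup.of i))
  obtain ⟨tw, htw⟩ := exists_word gen ht
  let ew : List (Fin n × Bool) → List (ι × Bool) := fun w => sub pw w ++ tw ++ winv (sub pw w)
  have hew : ∀ w, evalWord gen (ew w) = e (FreeGroup.mk w) := by
    intro w
    simp only [ew, he, evalWord_append, evalWord_winv, evalWord_sub gen P pw hpw, htw]
  -- lists in G
  set Rs : List G := rels.map e with hRs
  set Xs : List G := (List.finRange n).map fun i => e (FreeGroup.of i) with hXs
  let Uel : FreeGroup (Fin n) → List G := fun w =>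
    (W ++ (Rs ++ [e w]).flatMap fun h => cj h W) ++ (List.replicate n W).flatten
  let Tel : List G := (W ++ Xs.flatMap fun h => cj h W) ++ (List.replicate (rels.length + 1) W).flatten
  -- word lists
  let Uw : List (Fin n × Bool) → List (List (ι × Bool)) := fun w =>
    (Ww ++ ((rels.flatMap fun r => cjw (ew r.toWord) Ww) ++ cjw (ew w) Ww)) ++
      (List.replicate n Ww).flatten
  let Tw : List (List (ι × Bool)) :=
    (Ww ++ ((List.finRange n).flatMap fun i => cjw (ew [(i, true)]) Ww)) ++
      (List.replicate (rels.length + 1) Ww).flatten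
  have hrep : ∀ k, ((List.replicate k Ww).flatten).map (evalWord gen) = (List.replicate k W).flatten := by
    intro k
    rw [List.map_flatten, List.map_replicate, hWw]
  have hUw : ∀ w, (Uw w).map (evalWord gen) = Uel (FreeGroup.mk w) := by
    intro w
    simp only [Uw, Uel, List.map_append, hrep, hWw, cjw_map, hew, List.map_flatMap, List.flatMap_append,
      hRs, List.flatMap_map, FreeGroup.mk_toWord, List.flatMap_cons, List.flatMap_nil, List.append_nil]
  have hTw : Tw.map (evalWord gen) = Tel := by
    simp only [Tw, Tel, List.map_append, hrep, hWw, cjw_map, hew, List.map_flatMap,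
      hXs, List.flatMap_map]
    rfl
  -- conjugates of entries
  have hcjPT : ∀ h ∈ Γ, ∀ f ∈ cj h W, f ∈ PT := by
    intro h hh f hf
    obtain ⟨f', hf', rfl⟩ := mem_cj.1 hf
    exact hPT h hh f' (hW.1 f' hf')
  have hrepPT : ∀ k, ∀ f ∈ (List.replicate k W).flatten, f ∈ W := by
    intro k f hf
    simp only [List.mem_flatten, List.mem_replicate] at hf
    obtain ⟨l, ⟨_, rfl⟩, hl⟩ := hf
    exact hl
  have hblkPT : ∀ hs : List G, (∀ h ∈ hs, h ∈ Γ) → ∀ f ∈ hs.flatMap (fun h => cj h W), f ∈ PT := by
    intro hs hhs f hf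
    simp only [List.mem_flatMap] at hf
    obtain ⟨h, hh, hf⟩ := hf
    exact hcjPT h (hhs h hh) f hf
  have hfact : ∀ (hs : List G) (k : ℕ), (∀ h ∈ hs, h ∈ Γ) →
      IsFact PT ((W ++ hs.flatMap fun h => cj h W) ++ (List.replicate k W).flatten) := by
    intro hs k hhs
    refine ⟨?_, ?_⟩
    · intro f hf
      simp only [List.mem_append] at hf
      rcases hf with (hf | hf) | hf
      · exact hW.1 f hf
      · exact hblkPT hs hhs f hf
      · exact hW.1 f (hrepPT k f hf)
    · rw [List.prod_append, List.prod_append, hW.2, flatMap_prod_one hW.2, replicate_prod_one hW.2]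
      simp
  have hRsΓ : ∀ w, ∀ h ∈ Rs ++ [e w], h ∈ Γ := by
    intro w h hh
    simp only [hRs, List.mem_append, List.mem_map, List.mem_singleton] at hh
    rcases hh with ⟨r, _, rfl⟩ | rfl
    · exact heΓ r
    · exact heΓ w
  have hXsΓ : ∀ h ∈ Xs, h ∈ Γ := by
    intro h hh
    simp only [hXs, List.mem_map] at hh
    obtain ⟨i, _, rfl⟩ := hh
    exact heΓ _
  -- closures
  have hcl : ∀ (X : Set (FreeGroup (Fin n))) (hs : List G), (∀ h, h ∈ hs ↔ ∃ w ∈ X, e w = h) →
      Subgroup.closure {f | f ∈ W ++ hs.flatMap fun h => cj h W} =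
        Subgroup.closure ({f | f ∈ W} ∪ e '' X) := by
    intro X hs hhs
    refine le_antisymm ?_ ?_
    · rw [Subgroup.closure_le]
      intro f hf
      simp only [Set.mem_ofPred_eq, List.mem_append, List.mem_flatMap] at hf
      rcases hf with hf | ⟨h, hh, hf⟩
      · exact Subgroup.subset_closure (Or.inl hf)
      · obtain ⟨w, hw, rfl⟩ := (hhs h).1 hh
        obtain ⟨f', hf', rfl⟩ := mem_cj.1 hf
        have h1 : e w ∈ Subgroup.closure ({f | f ∈ W} ∪ e '' X) :=
          Subgroup.subset_closure (Or.inr ⟨w, hw, rfl⟩)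
        have h2 : f' ∈ Subgroup.closure ({f | f ∈ W} ∪ e '' X) :=
          Subgroup.subset_closure (Or.inl hf')
        exact Subgroup.mul_mem _ (Subgroup.mul_mem _ h1 h2) (Subgroup.inv_mem _ h1)
    · rw [Subgroup.closure_le]
      rintro f (hf | ⟨w, hw, rfl⟩)
      · refine Subgroup.subset_closure ?_
        simp only [Set.mem_ofPred_eq, List.mem_append] at hf ⊢
        exact Or.inl hf
      · refine Subgroup.closure_mono ?_ (hbr w)
        rintro f (hf | ⟨f', hf', rfl⟩)
        · simp only [Set.mem_ofPred_eq, List.mem_append] at hf ⊢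
          exact Or.inl hf
        · simp only [Set.mem_ofPred_eq, List.mem_append, List.mem_flatMap]
          exact Or.inr ⟨e w, (hhs _).2 ⟨w, hw, rfl⟩, mem_cj.2 ⟨f', hf', rfl⟩⟩
  have hclrep : ∀ (L : List G) (k : ℕ), (∀ f ∈ W, f ∈ L) →
      Subgroup.closure {f | f ∈ L ++ (List.replicate k W).flatten} = Subgroup.closure {f | f ∈ L} := by
    intro L k hL
    congr 1
    ext f
    simp only [Set.mem_ofPred_eq, List.mem_append]
    constructor
    · rintro (hf | hf)
      · exact hf
      · exact hL f (hrepPT k f hf)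
    · exact Or.inl
  have hmemR : ∀ w, ∀ h, h ∈ Rs ++ [e w] ↔ ∃ v ∈ insert w {r | r ∈ rels}, e v = h := by
    intro w h
    simp only [hRs, List.mem_append, List.mem_map, List.mem_singleton, Set.mem_insert_iff,
      Set.mem_ofPred_eq]
    constructor
    · rintro (⟨r, hr, rfl⟩ | rfl)
      · exact ⟨r, Or.inr hr, rfl⟩
      · exact ⟨w, Or.inl rfl, rfl⟩
    · rintro ⟨v, rfl | hv, rfl⟩
      · exact Or.inr rfl
      · exact Or.inl ⟨v, hv, rfl⟩
  have hmemX : ∀ h, h ∈ Xs ↔ ∃ v ∈ Set.range (FreeGroup.of : Fin n → _), e v = h := by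
    intro h
    simp [hXs]
  have hXtop : Subgroup.normalClosure (Set.range (FreeGroup.of : Fin n → _)) = ⊤ := by
    rw [eq_top_iff, ← FreeGroup.closure_range_of]
    exact Subgroup.closure_le_normalClosure
  have hTcl : Subgroup.closure {f | f ∈ Tel} = Γ := by
    simp only [Tel]
    rw [hclrep _ _ (fun f hf => List.mem_append_left _ hf), hcl _ Xs hmemX]
    exact (hmain _).2 hXtop
  have hTcl' : Subgroup.closure {f | f ∈ W ++ Xs.flatMap fun h => cj h W} = Γ := by
    rw [hcl _ Xs hmemX]
    exact (hmain _).2 hXtop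
  have hUcl : ∀ w, Subgroup.closure {f | f ∈ Uel w} =
      Subgroup.closure ({f | f ∈ W} ∪ e '' insert w {r | r ∈ rels}) := by
    intro w
    simp only [Uel]
    rw [hclrep _ _ (fun f hf => List.mem_append_left _ hf), hcl _ _ (hmemR w)]
  -- forward
  have hfwd : ∀ w, Subgroup.normalClosure (insert w {r | r ∈ rels}) = ⊤ → HurwitzEquiv (Uel w) Tel := by
    intro w hw
    have h1 := he_conj_all hW.2 Xs (W ++ (Rs ++ [e w]).flatMap fun h => cj h W) (by
      intro h hh
      rw [hcl _ _ (hmemR w), (hmain _).2 hw]
      exact hXsΓ h hh)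
    have h2 := he_conj_all hW.2 (Rs ++ [e w]) (W ++ Xs.flatMap fun h => cj h W) (by
      intro h hh
      rw [hTcl']
      exact hRsΓ w h hh)
    have hlX : Xs.length = n := by simp [hXs]
    have hlR : (Rs ++ [e w]).length = rels.length + 1 := by simp [hRs]
    rw [hlX] at h1
    rw [hlR] at h2
    refine he_trans h1 (he_trans ?_ (he_symm h2))
    rw [List.append_assoc, List.append_assoc]
    exact he_append_left W (he_swap_one (flatMap_prod_one hW.2 _) _)
  -- backward
  have hbwd : ∀ w, ∀ γ ∈ Γ, HurwitzEquiv ((Uel w).map fun f => γ * f * γ⁻¹) Tel →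
      Subgroup.normalClosure (insert w {r | r ∈ rels}) = ⊤ := by
    intro w γ hγ h
    have h1 := closure_he h
    rw [hTcl] at h1
    rw [← hmain, ← hUcl w]
    refine le_antisymm ?_ ?_
    · rw [Subgroup.closure_le]
      intro f hf
      have hfU : γ * f * γ⁻¹ ∈ Γ := by
        rw [← h1]
        refine Subgroup.subset_closure ?_
        simp only [Set.mem_ofPred_eq, List.mem_map]
        exact ⟨f, hf, rfl⟩
      have := Γ.mul_mem (Γ.mul_mem (Γ.inv_mem hγ) hfU) hγ
      simpa [mul_assoc] using this
    · intro x hx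
      have hx' : γ * x * γ⁻¹ ∈ Γ := Γ.mul_mem (Γ.mul_mem hγ hx) (Γ.inv_mem hγ)
      rw [← h1] at hx'
      have h2 : Subgroup.closure {f | f ∈ (Uel w).map fun f => γ * f * γ⁻¹} ≤
          (Subgroup.closure {f | f ∈ Uel w}).map (MulAut.conj γ).toMonoidHom := by
        rw [Subgroup.closure_le]
        intro f hf
        simp only [Set.mem_ofPred_eq, List.mem_map] at hf
        obtain ⟨f', hf', rfl⟩ := hf
        exact ⟨f', Subgroup.subset_closure hf', by simp⟩
      obtain ⟨y, hy, hyx⟩ := h2 hx'
      have : y = x := by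
        have : γ * y * γ⁻¹ = γ * x * γ⁻¹ := by simpa using hyx
        simpa using this
      rwa [← this]
  -- computability
  have hewp : Primrec ew := by
    refine Primrec.list_append.comp (Primrec.list_append.comp (primrec_sub pw) (Primrec.const tw)) ?_
    exact primrec_winv.comp (primrec_sub pw)
  have hUp : Primrec Uw := by
    refine Primrec.list_append.comp (Primrec.list_append.comp (Primrec.const _)
      (Primrec.list_append.comp (Primrec.const _) (primrec_cjw ew hewp Ww))) (Primrec.const _)
  have hUfact : ∀ w, IsFact PT ((Uw w).map (evalWord gen)) := by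
    intro w
    rw [hUw]
    exact hfact _ _ (hRsΓ _)
  refine ⟨Tw, by rw [hTw]; exact hfact _ _ hXsΓ, ?_, ?_⟩
  · rintro ⟨alg, halg, h⟩
    apply hrels
    rw [ComputablePred.computable_iff]
    refine ⟨fun w => alg (Uw w), halg.comp hUp.to_comp, ?_⟩
    funext w
    apply propext
    rw [h (Uw w) (hUfact w), hUw, hTw]
    constructor
    · exact hfwd _
    · intro hh
      refine hbwd _ 1 Γ.one_mem ?_
      simpa using hh
  · rintro ⟨alg, halg, h⟩
    apply hrels
    rw [ComputablePred.computable_iff]
    refine ⟨fun w => alg (Uw w), halg.comp hUp.to_comp, ?_⟩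
    funext w
    apply propext
    rw [h (Uw w) (hUfact w), hUw, hTw]
    constructor
    · intro hh
      refine ⟨1, Γ.one_mem, ?_⟩
      simpa using hfwd _ hh
    · rintro ⟨γ, hγ, hh⟩
      exact hbwd _ γ hγ hh

end Pool.Agent.helper27.Hz
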